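import Mathlib
import Pool.Agent.RepDeg.Defs
import Pool.Agent.RepDeg.Core

/-!
A finite graph in which any two vertices have four pairwise adjacent common neighbours does not have
the Ramsey repeated degree property. In particular the complete graph on `m ≥ 7` vertices minus an
edge does not have it.
-/

namespace Pool.Agent.Results.MP_6c10c0_co.KMinusEdge

open Pool.Agent.RepDeg

theorem redDeg_comap {M : ℕ} (v : Fin (10 * M)) :
    redDeg ((H M).comap (finProdFinEquiv (m := 10) (n := M)).symm) v +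
      T ((finProdFinEquiv (m := 10) (n := M)).symm v).1
        ((finProdFinEquiv (m := 10) (n := M)).symm v).1 =
      c ((finProdFinEquiv (m := 10) (n := M)).symm v).1 * M +
        ((finProdFinEquiv (m := 10) (n := M)).symm v).2.val := by
  classical
  rw [← card_adj M]
  congr 1
  unfold redDeg
  refine Finset.card_bij (fun w _ => (finProdFinEquiv (m := 10) (n := M)).symm w) ?_ ?_ ?_
  · intro w hw
    simpa using hw
  · intro w _ w' _ h
    exact (Equiv.injective _) h
  · intro q hq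
    refine ⟨finProdFinEquiv q, ?_, Equiv.symm_apply_apply _ _⟩
    rw [Finset.mem_filter] at hq ⊢
    refine ⟨Finset.mem_univ _, ?_⟩
    rw [SimpleGraph.comap_adj, Equiv.symm_apply_apply]
    exact hq.2

theorem not_rrd {k : ℕ} (G : SimpleGraph (Fin k))
    (hG : ∀ u v : Fin k, u ≠ v → ∃ s : Finset (Fin k), s.card = 4 ∧
      (∀ x ∈ s, G.Adj u x ∧ G.Adj v x) ∧ (∀ x ∈ s, ∀ y ∈ s, x ≠ y → G.Adj x y)) :
    ¬ RamseyRepeatedDegree G := by
  rintro ⟨N, hN⟩
  obtain ⟨f, ⟨hf, hmono⟩, a, b, hab, hdeg⟩ := hN (10 * N) (by omega)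
    ((H N).comap (finProdFinEquiv (m := 10) (n := N)).symm)
  set e := (finProdFinEquiv (m := 10) (n := N)).symm with he
  have d1 := redDeg_comap (M := N) (f a)
  have d2 := redDeg_comap (M := N) (f b)
  rw [← hdeg] at d2
  have hpq : e (f a) ≠ e (f b) := fun h => hab (hf (e.injective h))
  obtain ⟨hne, hc⟩ := same_deg hpq d1 d2
  obtain ⟨s, hs4, hs1, hs2⟩ := hG a b hab
  have hle : s.card ≤ 3 := by
    rcases hmono with h | h
    · refine no_red hne hc s (fun w => e (f w)) ?_ ?_ ?_
      · intro w hw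
        exact (h a w (hs1 w hw).1).2
      · intro w hw
        exact (h b w (hs1 w hw).2).2
      · intro w hw w' hw' hww
        exact (h w w' (hs2 w hw w' hw' hww)).2
    · refine no_blue hne hc s (fun w => e (f w)) ?_ ?_ ?_
      · intro w hw hr
        obtain ⟨h1, h2⟩ := h a w (hs1 w hw).1
        exact h2 ⟨fun h' => h1 (e.injective h'), hr⟩
      · intro w hw hr
        obtain ⟨h1, h2⟩ := h b w (hs1 w hw).2
        exact h2 ⟨fun h' => h1 (e.injective h'), hr⟩
      · intro w hw w' hw' hww hr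
        obtain ⟨h1, h2⟩ := h w w' (hs2 w hw w' hw' hww)
        exact h2 ⟨fun h' => h1 (e.injective h'), hr⟩
  omega

/-- **Main result.** Every finite graph in which any two distinct vertices have four pairwise adjacent
common neighbours lacks the Ramsey repeated degree property. In particular, for every `m ≥ 7`, the
complete graph on `m` vertices minus an edge is not isomorphic to any complete graph and lacks the
Ramsey repeated degree property. -/
theorem result :
    (∀ (k : ℕ) (G : SimpleGraph (Fin k)), 2 ≤ k →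
      (∀ u v : Fin k, u ≠ v → ∃ s : Finset (Fin k), s.card = 4 ∧
        (∀ x ∈ s, G.Adj u x ∧ G.Adj v x) ∧ (∀ x ∈ s, ∀ y ∈ s, x ≠ y → G.Adj x y)) →
      ¬ RamseyRepeatedDegree G) ∧
    (∀ m : ℕ, 7 ≤ m →
      (∀ k : ℕ, IsEmpty (completeMinusEdge m ≃g (⊤ : SimpleGraph (Fin k)))) ∧
      ¬ RamseyRepeatedDegree (completeMinusEdge m)) := by
  refine ⟨fun k G _ hG => not_rrd G hG, fun m hm => ⟨?_, ?_⟩⟩
  · intro k
    refine ⟨fun φ => ?_⟩
    have h0 : (⟨0, by omega⟩ : Fin m) ≠ ⟨1, by omega⟩ := by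
      intro h
      simp at h
    have h1 : ¬ (completeMinusEdge m).Adj (⟨0, by omega⟩ : Fin m) ⟨1, by omega⟩ := by
      intro h
      exact h.2 ⟨by simp, by simp⟩
    apply h1
    rw [← φ.map_adj_iff]
    intro h
    exact h0 (φ.injective h)
  · apply not_rrd
    intro u v huv
    obtain ⟨t, ht, hS⟩ : ∃ t : Finset (Fin m), t.card ≤ 3 ∧ ∀ w : Fin m, w ∉ t →
        w ≠ u ∧ w ≠ v ∧ (2 ≤ w.val ∨ (2 ≤ u.val ∧ 2 ≤ v.val ∧ 1 ≤ w.val)) := by
      by_cases hu : 2 ≤ u.val
      · by_cases hv : 2 ≤ v.val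
        · refine ⟨{⟨0, by omega⟩, u, v}, Finset.card_le_three, fun w hw => ?_⟩
          simp only [Finset.mem_insert, Finset.mem_singleton, not_or, Fin.ext_iff] at hw
          refine ⟨fun h => hw.2.1 (by rw [h]), fun h => hw.2.2 (by rw [h]), Or.inr ⟨hu, hv, ?_⟩⟩
          omega
        · refine ⟨{⟨0, by omega⟩, ⟨1, by omega⟩, u}, Finset.card_le_three, fun w hw => ?_⟩
          simp only [Finset.mem_insert, Finset.mem_singleton, not_or, Fin.ext_iff] at hw
          refine ⟨fun h => hw.2.2 (by rw [h]), fun h => ?_, Or.inl (by omega)⟩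
          rw [h] at hw
          omega
      · refine ⟨{⟨0, by omega⟩, ⟨1, by omega⟩, v}, Finset.card_le_three, fun w hw => ?_⟩
        simp only [Finset.mem_insert, Finset.mem_singleton, not_or, Fin.ext_iff] at hw
        refine ⟨fun h => ?_, fun h => hw.2.2 (by rw [h]), Or.inl (by omega)⟩
        rw [h] at hw
        omega
    have hcard : 4 ≤ ((Finset.univ : Finset (Fin m)) \ t).card := by
      have h2 := Finset.le_card_sdiff t (Finset.univ : Finset (Fin m))
      rw [Finset.card_univ, Fintype.card_fin] at h2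
      omega
    obtain ⟨s, hs, hs4⟩ := Finset.exists_subset_card_eq hcard
    have hmem : ∀ w ∈ s, w ≠ u ∧ w ≠ v ∧
        (2 ≤ w.val ∨ (2 ≤ u.val ∧ 2 ≤ v.val ∧ 1 ≤ w.val)) := fun w hw =>
      hS w (Finset.mem_sdiff.1 (hs hw)).2
    refine ⟨s, hs4, fun x hx => ?_, fun x hx y hy hxy => ?_⟩
    · obtain ⟨h1, h2, h3⟩ := hmem x hx
      refine ⟨⟨h1.symm, ?_⟩, ⟨h2.symm, ?_⟩⟩
      · rintro ⟨h4, h5⟩
        omega
      · rintro ⟨h4, h5⟩
        omega
    · obtain ⟨h1, h2, h3⟩ := hmem x hx
      obtain ⟨h4, h5, h6⟩ := hmem y hy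
      refine ⟨hxy, ?_⟩
      rintro ⟨h7, h8⟩
      apply hxy
      apply Fin.ext
      omega

end Pool.Agent.Results.MP_6c10c0_co.KMinusEdge
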